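import Mathlib

set_option autoImplicit false

/-!
# First-Fit on chordal graphs: a lower bound `c · ω · log n` uniform in `ω`

The binomial tree in which every vertex is replaced by a clique on `⌊k/2⌋` vertices (the root by a
clique on `⌈k/2⌉` vertices) is chordal, has clique number `k`, and First-Fit can be forced to use
`⌊k/2⌋` new colours per level of the tree.
-/

namespace Pool.Agent.Results.MP_4aa424_co.FirstFitChordal

open Finset

/-- `G` is chordal: every cycle `f 0, f 1, …, f (n-1)` of length `n ≥ 4` (distinct vertices,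
consecutive ones adjacent, indices mod `n`) has a chord, i.e. two adjacent vertices which are not
consecutive on the cycle. -/
def IsChordal {V : Type} (G : SimpleGraph V) : Prop :=
  ∀ n : ℕ, 4 ≤ n → ∀ f : ZMod n → V, Function.Injective f → (∀ i, G.Adj (f i) (f (i + 1))) →
    ∃ i j : ZMod n, j ≠ i ∧ j ≠ i + 1 ∧ i ≠ j + 1 ∧ G.Adj (f i) (f j)

/-- `c` is the First-Fit colouring of `G` for the ordering `σ`: every vertex gets the least positive
integer not used on its earlier neighbours. -/
def IsFirstFit {V : Type} [Fintype V] (G : SimpleGraph V) (σ : V ≃ Fin (Fintype.card V))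
    (c : V → ℕ) : Prop :=
  ∀ v, IsLeast {t : ℕ | 1 ≤ t ∧ ∀ u, G.Adj u v → σ u < σ v → c u ≠ t} (c v)

/-- The First-Fit chromatic number: the largest number of colours First-Fit uses on `G`, over all
orderings of the vertices. -/
noncomputable def firstFitNumber {V : Type} [Fintype V] (G : SimpleGraph V) : ℕ :=
  sSup {t | ∃ (σ : V ≃ Fin (Fintype.card V)) (c : V → ℕ), IsFirstFit G σ c ∧
    t = (univ.image c).card}

/-- A proper colouring in which every vertex sees all smaller colours is a First-Fit colouring. -/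
lemma le_firstFitNumber {V : Type} [Fintype V] (G : SimpleGraph V) (c : V → ℕ)
    (h1 : ∀ v, 1 ≤ c v) (hp : ∀ u v, G.Adj u v → c u ≠ c v)
    (hg : ∀ v, ∀ i, 1 ≤ i → i < c v → ∃ u, G.Adj u v ∧ c u = i) (v : V) :
    c v ≤ firstFitNumber G := by
  classical
  let e := Fintype.equivFin V
  let g : Fin (Fintype.card V) → ℕ := fun i => c (e.symm i)
  have hmono : Monotone (g ∘ Tuple.sort g) := Tuple.monotone_sort g
  let σ : V ≃ Fin (Fintype.card V) := e.trans (Tuple.sort g).symm
  have hσ : ∀ u v, c u < c v → σ u < σ v := by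
    intro u v huv
    by_contra hlt
    push Not at hlt
    have h2 := hmono hlt
    simp only [Function.comp, σ, g, Equiv.trans_apply, Equiv.apply_symm_apply,
      Equiv.symm_apply_apply] at h2
    omega
  have hff : IsFirstFit G σ c := by
    intro v
    refine ⟨⟨h1 v, fun u hu _ => hp u v hu⟩, ?_⟩
    rintro t ⟨ht1, ht⟩
    by_contra hlt
    push Not at hlt
    obtain ⟨u, hu, huc⟩ := hg v t ht1 hlt
    exact ht u hu (hσ u v (by omega)) huc
  have hcard : c v ≤ (univ.image c).card := by
    have : Finset.Icc 1 (c v) ⊆ univ.image c := by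
      intro i hi
      rw [Finset.mem_Icc] at hi
      rcases hi.2.eq_or_lt with h | h
      · exact Finset.mem_image.2 ⟨v, mem_univ _, h.symm⟩
      · obtain ⟨u, _, hu⟩ := hg v i hi.1 h
        exact Finset.mem_image.2 ⟨u, mem_univ _, hu⟩
    have h2 := Finset.card_le_card this
    simpa using h2
  refine hcard.trans (le_csSup ⟨Fintype.card V, ?_⟩ ⟨σ, c, hff, rfl⟩)
  rintro t ⟨_, c', _, rfl⟩
  exact Finset.card_image_le.trans (by simp)

section graph

variable {j : ℕ}

/-- `T` is the parent of `S` in the binomial tree: `S` with its least element removed. -/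
def Par (S T : Finset (Fin j)) : Prop := ∃ i ∈ S, (∀ x ∈ S, i ≤ x) ∧ T = S.erase i

lemma Par.unique {S T T' : Finset (Fin j)} (h : Par S T) (h' : Par S T') : T = T' := by
  obtain ⟨i, hi, hm, rfl⟩ := h
  obtain ⟨i', hi', hm', rfl⟩ := h'
  rw [le_antisymm (hm i' hi') (hm' i hi)]

lemma Par.card {S T : Finset (Fin j)} (h : Par S T) : T.card < S.card := by
  obtain ⟨i, hi, hm, rfl⟩ := h
  exact Finset.card_lt_card (Finset.erase_ssubset hi)

lemma Par.nonempty {S T : Finset (Fin j)} (h : Par S T) : S.Nonempty := by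
  obtain ⟨i, hi, hm, rfl⟩ := h
  exact ⟨i, hi⟩

/-- The level of a vertex of the binomial tree. -/
def lev (S : Finset (Fin j)) : ℕ := if h : S.Nonempty then (S.min' h).val else j

lemma lev_le {S : Finset (Fin j)} {x : Fin j} (hx : x ∈ S) : lev S ≤ x.val := by
  unfold lev
  rw [dif_pos ⟨x, hx⟩]
  exact Fin.val_le_of_le (Finset.min'_le S x hx)

lemma lev_le' (S : Finset (Fin j)) : lev S ≤ j := by
  unfold lev
  split_ifs with h
  · exact (S.min' h).isLt.le
  · exact le_rfl

lemma lev_lt {S T : Finset (Fin j)} (h : Par S T) : lev S < lev T := by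
  obtain ⟨i, hi, hm, rfl⟩ := h
  refine (lev_le hi).trans_lt ?_
  unfold lev
  split_ifs with h
  · have h1 := Finset.min'_mem _ h
    rw [Finset.mem_erase] at h1
    exact Fin.lt_def.1 (lt_of_le_of_ne (hm _ h1.2) (Ne.symm h1.1))
  · exact i.isLt

lemma exists_child (S : Finset (Fin j)) (q : ℕ) (hq : q < lev S) :
    ∃ S' : Finset (Fin j), Par S' S ∧ lev S' = q := by
  have hqj : q < j := hq.trans_le (lev_le' S)
  have hall : ∀ x ∈ S, q < x.val := fun x hx => hq.trans_le (lev_le hx)
  have hnot : (⟨q, hqj⟩ : Fin j) ∉ S := fun h => lt_irrefl _ (hall _ h)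
  refine ⟨insert ⟨q, hqj⟩ S, ⟨⟨q, hqj⟩, Finset.mem_insert_self _ _, ?_, ?_⟩, ?_⟩
  · intro x hx
    rcases Finset.mem_insert.1 hx with rfl | hx
    · exact le_rfl
    · exact Fin.le_def.2 (hall x hx).le
  · rw [Finset.erase_insert hnot]
  · refine le_antisymm (lev_le (Finset.mem_insert_self _ _)) ?_
    unfold lev
    rw [dif_pos ⟨_, Finset.mem_insert_self _ _⟩]
    have h1 := Finset.min'_mem (insert (⟨q, hqj⟩ : Fin j) S) ⟨_, Finset.mem_insert_self _ _⟩
    rcases Finset.mem_insert.1 h1 with h | h
    · rw [h]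
    · exact (hall _ h).le

variable (k : ℕ)

/-- The size of the clique replacing the vertex `S` of the binomial tree. -/
def wt (S : Finset (Fin j)) : ℕ := if S = ∅ then k - k / 2 else k / 2

/-- The vertex set of the blown-up binomial tree. -/
abbrev Vx (j k : ℕ) : Type := Σ S : Finset (Fin j), Fin (wt k S)

/-- The blown-up binomial tree. -/
def blow (j k : ℕ) : SimpleGraph (Vx j k) where
  Adj x y := x ≠ y ∧ (x.1 = y.1 ∨ Par x.1 y.1 ∨ Par y.1 x.1)
  symm := ⟨fun x y h => ⟨h.1.symm, by
    rcases h.2 with h | h | h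
    · exact Or.inl h.symm
    · exact Or.inr (Or.inr h)
    · exact Or.inr (Or.inl h)⟩⟩
  loopless := ⟨fun x h => h.1 rfl⟩

variable {k}

/-- The First-Fit colour. -/
def col (x : Vx j k) : ℕ := lev x.1 * (k / 2) + x.2.val + 1

lemma wt_pos (hk : 2 ≤ k) (S : Finset (Fin j)) : 0 < wt k S := by
  unfold wt
  split_ifs <;> omega

lemma wt_of_ne {S : Finset (Fin j)} (h : S.Nonempty) : wt k S = k / 2 := by
  unfold wt
  rw [if_neg h.ne_empty]

lemma col_lt {x y : Vx j k} (h : Par x.1 y.1) : col x < col y := by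
  have h1 := lev_lt h
  have h2 : x.2.val < k / 2 := by
    have := x.2.isLt
    have h3 := wt_of_ne (k := k) h.nonempty
    omega
  unfold col
  have h3 : (lev x.1 + 1) * (k / 2) ≤ lev y.1 * (k / 2) := Nat.mul_le_mul_right _ h1
  rw [Nat.add_mul, Nat.one_mul] at h3
  omega

lemma col_proper (x y : Vx j k) (h : (blow j k).Adj x y) : col x ≠ col y := by
  obtain ⟨hne, h | h | h⟩ := h
  · intro hc
    apply hne
    obtain ⟨S, a⟩ := x
    obtain ⟨T, b⟩ := y
    dsimp only at h
    subst h
    simp only [col] at hc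
    have : a = b := Fin.ext (by omega)
    rw [this]
  · exact (col_lt h).ne
  · exact (col_lt h).ne'

lemma col_grundy (hk : 2 ≤ k) (x : Vx j k) (i : ℕ) (hi : 1 ≤ i) (hx : i < col x) :
    ∃ u, (blow j k).Adj u x ∧ col u = i := by
  obtain ⟨S, a⟩ := x
  have hm : 0 < k / 2 := by omega
  have hdm := Nat.div_add_mod (i - 1) (k / 2)
  have hr := Nat.mod_lt (i - 1) hm
  set q := (i - 1) / (k / 2) with hq
  set r := (i - 1) % (k / 2) with hr'
  simp only [col] at hx
  have ha : a.val ≤ k / 2 := by
    have := a.isLt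
    unfold wt at this
    split_ifs at this <;> omega
  rcases lt_trichotomy q (lev S) with h | h | h
  · obtain ⟨S', hS', hl⟩ := exists_child S q h
    have hw : wt k S' = k / 2 := wt_of_ne hS'.nonempty
    refine ⟨⟨S', ⟨r, by omega⟩⟩, ⟨?_, Or.inr (Or.inl hS')⟩, ?_⟩
    · intro he
      have h2 : S' = S := congrArg Sigma.fst he
      rw [h2] at hS'
      exact lt_irrefl _ hS'.card
    · simp only [col, hl]
      rw [Nat.mul_comm]
      omega
  · have h3 : q * (k / 2) = (k / 2) * q := Nat.mul_comm _ _
    rw [← h] at hx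
    have hra : r < a.val := by omega
    refine ⟨⟨S, ⟨r, hra.trans a.isLt⟩⟩, ⟨?_, Or.inl rfl⟩, ?_⟩
    · intro he
      rw [Sigma.mk.injEq] at he
      have := eq_of_heq he.2
      have h4 := congrArg Fin.val this
      simp only at h4
      omega
    · simp only [col, ← h]
      rw [Nat.mul_comm]
      omega
  · exfalso
    have h3 : (lev S + 1) * (k / 2) ≤ q * (k / 2) := Nat.mul_le_mul_right _ h
    rw [Nat.add_mul, Nat.one_mul, Nat.mul_comm q] at h3
    omega

/-- Two distinct vertices adjacent to (or equal to) a vertex of maximal depth are adjacent. -/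
lemma adj_of_top {x a b : Vx j k} (ha : (blow j k).Adj x a) (hb : (blow j k).Adj x b)
    (hca : a.1.card ≤ x.1.card) (hcb : b.1.card ≤ x.1.card) (hab : a ≠ b) :
    (blow j k).Adj a b := by
  have key : ∀ c : Vx j k, (blow j k).Adj x c → c.1.card ≤ x.1.card → x.1 = c.1 ∨ Par x.1 c.1 := by
    rintro c ⟨_, h | h | h⟩ hc
    · exact Or.inl h
    · exact Or.inr h
    · exact absurd h.card (by omega)
  refine ⟨hab, ?_⟩
  rcases key a ha hca with h1 | h1 <;> rcases key b hb hcb with h2 | h2
  · exact Or.inl (h1.symm.trans h2)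
  · rw [h1] at h2
    exact Or.inr (Or.inl h2)
  · rw [h2] at h1
    exact Or.inr (Or.inr h1)
  · exact Or.inl (h1.unique h2)

lemma chordal : IsChordal (blow j k) := by
  intro n hn f hf hadj
  have : NeZero n := ⟨by omega⟩
  obtain ⟨i, -, hi⟩ := Finset.exists_max_image (univ : Finset (ZMod n)) (fun i => (f i).1.card)
    ⟨0, mem_univ _⟩
  have h2 : ((2 : ℕ) : ZMod n) ≠ 0 := by
    rw [Ne, ZMod.natCast_eq_zero_iff]
    intro h
    have := Nat.le_of_dvd (by norm_num) h
    omega
  have h3 : ((3 : ℕ) : ZMod n) ≠ 0 := by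
    rw [Ne, ZMod.natCast_eq_zero_iff]
    intro h
    have := Nat.le_of_dvd (by norm_num) h
    omega
  have h1 : ((1 : ℕ) : ZMod n) ≠ 0 := by
    rw [Ne, ZMod.natCast_eq_zero_iff]
    intro h
    have := Nat.le_of_dvd (by norm_num) h
    omega
  push_cast at h1 h2 h3
  have hne : i + 1 ≠ i - 1 := by
    intro h
    apply h2
    linear_combination h
  refine ⟨i - 1, i + 1, hne, ?_, ?_, ?_⟩
  · intro h
    apply h1
    linear_combination h
  · intro h
    apply h3
    linear_combination -h
  · have e1 : (blow j k).Adj (f i) (f (i - 1)) := by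
      have := hadj (i - 1)
      rw [sub_add_cancel] at this
      exact this.symm
    exact adj_of_top e1 (hadj i) (hi _ (mem_univ _)) (hi _ (mem_univ _))
      (fun h => hne (hf h).symm)

lemma connected (hk : 2 ≤ k) : (blow j k).Connected := by
  let r : Vx j k := ⟨∅, ⟨0, wt_pos hk _⟩⟩
  have hreach : ∀ (n : ℕ) (x : Vx j k), x.1.card = n → (blow j k).Reachable x r := by
    intro n
    induction n with
    | zero =>
      rintro ⟨S, a⟩ hS
      rw [Finset.card_eq_zero] at hS
      dsimp only at hS
      subst hS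
      by_cases h : (⟨∅, a⟩ : Vx j k) = r
      · rw [h]
      · exact SimpleGraph.Adj.reachable ⟨h, Or.inl rfl⟩
    | succ n ih =>
      rintro ⟨S, a⟩ hS
      have hne : S.Nonempty := by
        rw [← Finset.card_pos]
        dsimp only at hS
        omega
      have hpar : Par S (S.erase (S.min' hne)) :=
        ⟨_, Finset.min'_mem _ _, fun x hx => Finset.min'_le _ x hx, rfl⟩
      have hadj : (blow j k).Adj ⟨S, a⟩ ⟨S.erase (S.min' hne), ⟨0, wt_pos hk _⟩⟩ := by
        refine ⟨?_, Or.inr (Or.inl hpar)⟩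
        intro h
        have h2 : S = S.erase (S.min' hne) := congrArg Sigma.fst h
        have h3 := congrArg Finset.card h2
        have h4 := hpar.card
        omega
      refine hadj.reachable.trans (ih _ ?_)
      dsimp only at hS ⊢
      rw [Finset.card_erase_of_mem (Finset.min'_mem _ _), hS]
      rfl
  have : Nonempty (Vx j k) := ⟨r⟩
  exact ⟨fun x y => (hreach _ x rfl).trans (hreach _ y rfl).symm⟩

/-- The fibre over a vertex of the binomial tree. -/
def fib (j k : ℕ) (S : Finset (Fin j)) : Finset (Vx j k) :=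
  (univ : Finset (Fin (wt k S))).map (Function.Embedding.sigmaMk S)

lemma card_fib (S : Finset (Fin j)) : (fib j k S).card = wt k S := by
  simp [fib]

lemma mem_fib (x : Vx j k) : x ∈ fib j k x.1 := by
  unfold fib
  rw [Finset.mem_map]
  exact ⟨x.2, mem_univ _, rfl⟩

lemma clique_le (K : Finset (Vx j k)) (hK : (blow j k).IsClique (K : Set (Vx j k))) :
    K.card ≤ k := by
  rcases K.eq_empty_or_nonempty with rfl | hne
  · simp
  obtain ⟨x, hx, hmax⟩ := Finset.exists_max_image K (fun x => x.1.card) hne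
  have key : ∀ c ∈ K, c.1 = x.1 ∨ Par x.1 c.1 := by
    intro c hc
    by_cases h : x = c
    · exact Or.inl (by rw [h])
    · obtain ⟨_, h1 | h1 | h1⟩ := hK hx hc h
      · exact Or.inl h1.symm
      · exact Or.inr h1
      · have := hmax c hc
        exact absurd h1.card (by omega)
  rcases x.1.eq_empty_or_nonempty with h0 | h0
  · have hsub : K ⊆ fib j k x.1 := by
      intro c hc
      rcases key c hc with h | h
      · rw [← h]
        exact mem_fib c
      · exact absurd h.nonempty (by rw [h0]; simp)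
    have h1 := Finset.card_le_card hsub
    rw [card_fib] at h1
    have h2 : wt k x.1 ≤ k := by
      unfold wt
      split_ifs <;> omega
    omega
  · have hpar : Par x.1 (x.1.erase (x.1.min' h0)) :=
      ⟨_, Finset.min'_mem _ _, fun y hy => Finset.min'_le _ y hy, rfl⟩
    have hsub : K ⊆ fib j k x.1 ∪ fib j k (x.1.erase (x.1.min' h0)) := by
      intro c hc
      rw [Finset.mem_union]
      rcases key c hc with h | h
      · left
        rw [← h]
        exact mem_fib c
      · right
        rw [hpar.unique h]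
        exact mem_fib c
    have h1 := Finset.card_le_card hsub
    have h2 := Finset.card_union_le (fib j k x.1) (fib j k (x.1.erase (x.1.min' h0)))
    rw [card_fib, card_fib] at h2
    have h3 := wt_of_ne (k := k) h0
    have h4 : wt k (x.1.erase (x.1.min' h0)) ≤ k - k / 2 := by
      unfold wt
      split_ifs <;> omega
    omega

lemma cliqueNum_eq (hj : 1 ≤ j) : (blow j k).cliqueNum = k := by
  classical
  apply le_antisymm
  · obtain ⟨K, hK⟩ := (blow j k).exists_isNClique_cliqueNum
    rw [← hK.card_eq]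
    exact clique_le K hK.isClique
  · let S : Finset (Fin j) := {⟨0, hj⟩}
    have hS : S.Nonempty := ⟨_, Finset.mem_singleton_self _⟩
    have hpar : Par S ∅ := ⟨⟨0, hj⟩, Finset.mem_singleton_self _, fun x hx => by
      rw [Finset.mem_singleton.1 hx], by simp [S]⟩
    have hfst : ∀ (T : Finset (Fin j)) (x : Vx j k), x ∈ fib j k T → x.1 = T := by
      intro T x hx
      unfold fib at hx
      rw [Finset.mem_map] at hx
      obtain ⟨a, _, rfl⟩ := hx
      rfl
    have hcl : (blow j k).IsClique ((fib j k S ∪ fib j k ∅ : Finset (Vx j k)) : Set (Vx j k)) := by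
      intro x hx y hy hxy
      rw [Finset.mem_coe, Finset.mem_union] at hx hy
      refine ⟨hxy, ?_⟩
      rcases hx with hx | hx <;> rcases hy with hy | hy
      · exact Or.inl ((hfst _ _ hx).trans (hfst _ _ hy).symm)
      · right; left; rw [hfst _ _ hx, hfst _ _ hy]; exact hpar
      · right; right; rw [hfst _ _ hx, hfst _ _ hy]; exact hpar
      · exact Or.inl ((hfst _ _ hx).trans (hfst _ _ hy).symm)
    have hdisj : Disjoint (fib j k S) (fib j k ∅) := by
      rw [Finset.disjoint_left]
      intro x hx hx'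
      have := (hfst _ _ hx).symm.trans (hfst _ _ hx')
      exact hS.ne_empty this
    have h1 := hcl.card_le_cliqueNum
    rw [Finset.card_union_of_disjoint hdisj, card_fib, card_fib, wt_of_ne hS] at h1
    have h2 : wt k (∅ : Finset (Fin j)) = k - k / 2 := by simp [wt]
    omega

lemma card_bounds (hk : 2 ≤ k) :
    2 ^ j ≤ Fintype.card (Vx j k) ∧ Fintype.card (Vx j k) ≤ 2 ^ j * k := by
  rw [Fintype.card_sigma]
  simp only [Fintype.card_fin]
  constructor
  · calc 2 ^ j = ∑ _S : Finset (Fin j), 1 := by simp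
      _ ≤ ∑ S : Finset (Fin j), wt k S := Finset.sum_le_sum (fun S _ => wt_pos hk S)
  · calc ∑ S : Finset (Fin j), wt k S ≤ ∑ _S : Finset (Fin j), k :=
        Finset.sum_le_sum (fun S _ => by unfold wt; split_ifs <;> omega)
      _ = 2 ^ j * k := by simp

lemma firstFit_ge (hk : 2 ≤ k) : (j + 1) * (k / 2) ≤ firstFitNumber (blow j k) := by
  have hw : k / 2 - 1 < wt k (∅ : Finset (Fin j)) := by
    simp only [wt, if_true]
    omega
  have h := le_firstFitNumber (blow j k) col (fun v => by unfold col; omega) col_proper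
    (fun v i h1 h2 => col_grundy hk v i h1 h2) ⟨∅, ⟨k / 2 - 1, hw⟩⟩
  refine le_trans (le_of_eq ?_) h
  have : lev (∅ : Finset (Fin j)) = j := by simp [lev]
  simp only [col, this]
  rw [Nat.add_mul, Nat.one_mul]
  omega

end graph

/-- **Irani's question.** For every `k ≥ 2` there are connected chordal graphs with clique number
`k` and arbitrarily many vertices on which First-Fit can be forced to use at least
`(1/6) · k · log₂ n` colours, `n` being the number of vertices. -/
theorem result : ∀ k : ℕ, 2 ≤ k → ∀ N : ℕ, ∃ (V : Type) (_ : Fintype V) (G : SimpleGraph V),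
    IsChordal G ∧ G.Connected ∧ G.cliqueNum = k ∧ N ≤ Fintype.card V ∧
      (1 / 6 : ℝ) * k * Real.logb 2 (Fintype.card V) ≤ firstFitNumber G := by
  intro k hk N
  set j := N + k with hj
  have hcb := card_bounds (j := j) hk
  refine ⟨Vx j k, inferInstance, blow j k, chordal, connected hk, cliqueNum_eq (by omega), ?_, ?_⟩
  · have : N < 2 ^ N := Nat.lt_two_pow_self
    have h2 : 2 ^ N ≤ 2 ^ j := Nat.pow_le_pow_right (by norm_num) (by omega)
    omega
  · have h1 : Fintype.card (Vx j k) ≤ 2 ^ (2 * j) := by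
      refine hcb.2.trans ?_
      have h3 : k < 2 ^ k := Nat.lt_two_pow_self
      have h4 : 2 ^ k ≤ 2 ^ j := Nat.pow_le_pow_right (by norm_num) (by omega)
      calc 2 ^ j * k ≤ 2 ^ j * 2 ^ j := Nat.mul_le_mul_left _ (by omega)
        _ = 2 ^ (2 * j) := by rw [← pow_add]; congr 1; omega
    have hpos : 0 < Fintype.card (Vx j k) := lt_of_lt_of_le (by positivity) hcb.1
    have h2 : Real.logb 2 (Fintype.card (Vx j k)) ≤ 2 * j := by
      rw [Real.logb_le_iff_le_rpow (by norm_num) (by exact_mod_cast hpos)]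
      have : ((2 : ℝ) ^ ((2 : ℝ) * (j : ℝ))) = ((2 ^ (2 * j) : ℕ) : ℝ) := by
        rw [show (2 : ℝ) * (j : ℝ) = ((2 * j : ℕ) : ℝ) by push_cast; ring, Real.rpow_natCast]
        push_cast
        rfl
      rw [this]
      exact_mod_cast h1
    have h3 : ((j + 1) * (k / 2) : ℕ) ≤ firstFitNumber (blow j k) := firstFit_ge hk
    have h4 : k * j ≤ 3 * ((j + 1) * (k / 2)) := by
      have h5 : k ≤ 3 * (k / 2) := by omega
      calc k * j ≤ 3 * (k / 2) * j := Nat.mul_le_mul_right _ h5
        _ ≤ 3 * (k / 2) * (j + 1) := Nat.mul_le_mul_left _ (by omega)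
        _ = 3 * ((j + 1) * (k / 2)) := by ring
    have h5 : (k : ℝ) * j ≤ 3 * firstFitNumber (blow j k) := by
      exact_mod_cast h4.trans (Nat.mul_le_mul_left 3 h3)
    have h6 : (k : ℝ) * Real.logb 2 (Fintype.card (Vx j k)) ≤ k * (2 * j) :=
      mul_le_mul_of_nonneg_left h2 (Nat.cast_nonneg _)
    nlinarith

end Pool.Agent.Results.MP_4aa424_co.FirstFitChordal
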